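import Mathlib

set_option autoImplicit false

namespace Pool.Agent.Results.MP_104382_al.NotSL2ZParadoxical

theorem half_of_int (k : ℤ) (x : ℝ) (hx : x = (k : ℝ) / 2) (h0 : 0 < x) (h1 : x < 1) :
    x = 1 / 2 := by
  have h2 : (0 : ℝ) < k := by linarith
  have h3 : (k : ℝ) < 2 := by linarith
  have h4 : 0 < k := by exact_mod_cast h2
  have h5 : k < 2 := by exact_mod_cast h3
  have h6 : k = 1 := by omega
  rw [hx, h6]
  norm_num

/-- The centre of the square is the only point of the open square in its `SL₂(ℤ)`-orbit. -/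
theorem eq_centre (g : Matrix.SpecialLinearGroup (Fin 2) ℤ) (v : Fin 2 → ℝ)
    (hv : ∀ k, 0 < v k ∧ v k < 1)
    (h : Matrix.mulVec ((g : Matrix (Fin 2) (Fin 2) ℤ).map (Int.cast : ℤ → ℝ)) v =
      fun _ => 1 / 2) : v = fun _ => 1 / 2 := by
  have hdet := g.det_coe
  rw [Matrix.det_fin_two] at hdet
  have hdet' : ((g.1 0 0 : ℤ) : ℝ) * g.1 1 1 - (g.1 0 1 : ℝ) * g.1 1 0 = 1 := by
    exact_mod_cast hdet
  have h0 := congrFun h 0
  have h1 := congrFun h 1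
  simp only [Matrix.mulVec, dotProduct, Fin.sum_univ_two, Matrix.map_apply] at h0 h1
  have e0 : v 0 = ((g.1 1 1 - g.1 0 1 : ℤ) : ℝ) / 2 := by
    push_cast
    linear_combination (g.1 1 1 : ℝ) * h0 - (g.1 0 1 : ℝ) * h1 - v 0 * hdet'
  have e1 : v 1 = ((g.1 0 0 - g.1 1 0 : ℤ) : ℝ) / 2 := by
    push_cast
    linear_combination (g.1 0 0 : ℝ) * h1 - (g.1 1 0 : ℝ) * h0 - v 1 * hdet'
  funext k
  fin_cases k
  · exact half_of_int _ _ e0 (hv 0).1 (hv 0).2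
  · exact half_of_int _ _ e1 (hv 1).1 (hv 1).2

/-- The open unit square is not `SL₂(ℤ)`-paradoxical (hence not paradoxical under any subgroup
of `SL₂(ℤ)`). -/
theorem result :
    ¬ ∃ (n m : ℕ) (A : Fin n → Set (Fin 2 → ℝ)) (B : Fin m → Set (Fin 2 → ℝ))
      (g : Fin n → Matrix.SpecialLinearGroup (Fin 2) ℤ)
      (h : Fin m → Matrix.SpecialLinearGroup (Fin 2) ℤ),
      (∀ i, A i ⊆ {v : Fin 2 → ℝ | ∀ k, 0 < v k ∧ v k < 1}) ∧
      (∀ j, B j ⊆ {v : Fin 2 → ℝ | ∀ k, 0 < v k ∧ v k < 1}) ∧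
      Pairwise (fun i i' => Disjoint (A i) (A i')) ∧
      Pairwise (fun j j' => Disjoint (B j) (B j')) ∧
      (∀ i j, Disjoint (A i) (B j)) ∧
      (⋃ i, (fun v => Matrix.mulVec
          ((g i : Matrix (Fin 2) (Fin 2) ℤ).map (Int.cast : ℤ → ℝ)) v) '' A i)
        = {v : Fin 2 → ℝ | ∀ k, 0 < v k ∧ v k < 1} ∧
      (⋃ j, (fun v => Matrix.mulVec
          ((h j : Matrix (Fin 2) (Fin 2) ℤ).map (Int.cast : ℤ → ℝ)) v) '' B j)
        = {v : Fin 2 → ℝ | ∀ k, 0 < v k ∧ v k < 1} := by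
  rintro ⟨n, m, A, B, g, h, hA, hB, -, -, hAB, e1, e2⟩
  have hp : (fun _ => 1 / 2 : Fin 2 → ℝ) ∈ {v : Fin 2 → ℝ | ∀ k, 0 < v k ∧ v k < 1} := by
    intro k
    norm_num
  have p1 := hp
  have p2 := hp
  rw [← e1] at p1
  rw [← e2] at p2
  obtain ⟨i, v, hv, ev⟩ := Set.mem_iUnion.1 p1
  obtain ⟨j, w, hw, ew⟩ := Set.mem_iUnion.1 p2
  have q1 := eq_centre (g i) v (hA i hv) ev
  have q2 := eq_centre (h j) w (hB j hw) ew
  exact Set.disjoint_left.1 (hAB i j) (q1 ▸ hv) (q2 ▸ hw)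

end Pool.Agent.Results.MP_104382_al.NotSL2ZParadoxical
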